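import Pool.Agent.EWG.StmtsC
import Pool.Agent.Common_Sieve.BT

/-!
# Squad EWG, row BT2: Brun-Titchmarsh for moduli up to `x^(3/5)`
-/

set_option autoImplicit false

namespace Pool.Agent.EWG.H50

open Finset

/-- a sum of logarithms is at most the number of terms times `log x` -/
theorem bt2_card (x q : ℕ) : Th x q ≤
    (((Finset.Icc 1 x).filter (fun p => p.Prime ∧ p % q = 1 % q)).card : ℝ) * Real.log x := by
  rw [Th, ← nsmul_eq_mul]
  refine Finset.sum_le_card_nsmul _ _ _ fun p hp => ?_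
  obtain ⟨h1, h2, -⟩ := Finset.mem_filter.mp hp
  exact Real.log_le_log (by exact_mod_cast h2.pos) (by exact_mod_cast (Finset.mem_Icc.mp h1).2)

/-- **BT2** -/
theorem bt2 : Bt2Stmt := by
  obtain ⟨X₀, hX₀⟩ : ∃ X₀ : ℝ, X₀ = 2 ^ 2000 := ⟨_, rfl⟩
  have hX₀pos : 0 < X₀ := by rw [hX₀]; positivity
  refine ⟨24010 + X₀ ^ 2, by positivity, ?_⟩
  intro x q hx hq hqx
  have hx1 : (1 : ℝ) ≤ (x : ℝ) := by exact_mod_cast hx
  have hx0 : (0 : ℝ) < (x : ℝ) := by linarith
  have hlog : 0 ≤ Real.log (x : ℝ) := Real.log_nonneg hx1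
  have hφ : 0 < (Nat.totient q : ℝ) := by exact_mod_cast Nat.totient_pos.2 hq
  have hφq : (Nat.totient q : ℝ) ≤ q := by exact_mod_cast Nat.totient_le q
  have hq0 : (0 : ℝ) < (q : ℝ) := by exact_mod_cast hq
  have hqx' : q ≤ x := by
    have h1 : q ^ 5 ≤ x ^ 5 := hqx.trans (Nat.pow_le_pow_right hx (by norm_num))
    exact (Nat.pow_le_pow_iff_left (by norm_num)).mp h1
  have hqxR : (q : ℝ) ≤ (x : ℝ) := by exact_mod_cast hqx'
  have hcard := bt2_card x q
  set F : Finset ℕ := (Finset.Icc 1 x).filter (fun p => p.Prime ∧ p % q = 1 % q) with hF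
  rcases lt_or_ge ((x : ℝ) ^ ((1 : ℝ) / 2000)) 2 with hA | hB
  · -- small `x`
    have hxX : (x : ℝ) ≤ X₀ := by
      have h1 : ((x : ℝ) ^ ((1 : ℝ) / 2000)) ^ 2000 = x := by
        rw [← Real.rpow_natCast, ← Real.rpow_mul hx0.le]
        norm_num
      rw [← h1, hX₀]
      exact pow_le_pow_left₀ (Real.rpow_nonneg hx0.le _) hA.le _
    have hFx : (F.card : ℝ) ≤ x := by
      have h1 : F.card ≤ (Finset.Icc 1 x).card := Finset.card_filter_le _ _
      rw [Nat.card_Icc] at h1
      exact_mod_cast (by omega : F.card ≤ x)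
    have hlx : Real.log (x : ℝ) ≤ X₀ := (Real.log_le_self hx0.le).trans hxX
    rw [le_div_iff₀ hφ]
    calc Th x q * (Nat.totient q : ℝ) ≤ (x * X₀) * X₀ := by
          refine mul_le_mul (hcard.trans (mul_le_mul hFx hlx hlog hx0.le)) ?_ hφ.le (by positivity)
          exact hφq.trans (hqxR.trans hxX)
      _ ≤ (24010 + X₀ ^ 2) * x := by nlinarith
  · -- large `x`
    obtain ⟨w, hw⟩ : ∃ w : ℕ, w = ⌊(x : ℝ) ^ ((1 : ℝ) / 2000)⌋₊ := ⟨_, rfl⟩
    have hw2 : 2 ≤ w := by
      rw [hw]
      exact Nat.le_floor (by exact_mod_cast hB)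
    have hwle : (w : ℝ) ≤ (x : ℝ) ^ ((1 : ℝ) / 2000) := by
      rw [hw]
      exact Nat.floor_le (Real.rpow_nonneg hx0.le _)
    have hwlt : (x : ℝ) ^ ((1 : ℝ) / 2000) < w + 1 := by
      rw [hw]
      exact Nat.lt_floor_add_one _
    obtain ⟨t, ht⟩ : ∃ t : ℝ, t = (x : ℝ) ^ ((1 : ℝ) / 4000) := ⟨_, rfl⟩
    have ht0 : 0 < t := by
      rw [ht]
      exact Real.rpow_pos_of_pos hx0 _
    have htt : t ^ 2 = (x : ℝ) ^ ((1 : ℝ) / 2000) := by
      rw [ht, ← Real.rpow_natCast, ← Real.rpow_mul hx0.le]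
      norm_num
    have htw : t ≤ w := by
      have h2 : (2 : ℝ) ≤ (w : ℝ) := by exact_mod_cast hw2
      rcases le_or_gt t 2 with h | h
      · linarith
      · rw [← htt] at hwlt
        nlinarith
    have hlw : Real.log x / 4000 ≤ Real.log w := by
      have h1 : Real.log t = Real.log x / 4000 := by
        rw [ht, Real.log_rpow hx0]
        ring
      rw [← h1]
      exact Real.log_le_log ht0 htw
    have hx2 : (2 : ℝ) ≤ (x : ℝ) := by
      have h1 : (x : ℝ) ^ ((1 : ℝ) / 2000) ≤ (x : ℝ) ^ (1 : ℝ) :=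
        Real.rpow_le_rpow_of_exponent_le hx1 (by norm_num)
      rw [Real.rpow_one] at h1
      linarith
    have hlogpos : 0 < Real.log (x : ℝ) := Real.log_pos (by linarith)
    have hlwpos : 0 < Real.log (w : ℝ) := lt_of_lt_of_le (by positivity) hlw
    -- the rough ones
    have h1 := Pool.Agent.Common_Sieve.rough_in_ap w q 1 0 x hw2 hq (F.filter fun p => ¬ p < w) (by
      intro m hm
      obtain ⟨hm1, hm2⟩ := Finset.mem_filter.mp hm
      obtain ⟨hm3, hm4, hm5⟩ := Finset.mem_filter.mp hm1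
      have hm6 := Finset.mem_Icc.mp hm3
      refine ⟨by omega, by omega, hm5, fun p hp hpw hpm => ?_⟩
      rcases (Nat.dvd_prime hm4).mp hpm with h | h
      · exact hp.one_lt.ne' h
      · exact hm2 (h ▸ hpw))
    have h2 : ((F.filter fun p => p < w).card : ℝ) ≤ w := by
      have h3 : (F.filter fun p => p < w) ⊆ Finset.range w := fun p hp =>
        Finset.mem_range.mpr (Finset.mem_filter.mp hp).2
      have h4 := Finset.card_le_card h3
      rw [Finset.card_range] at h4
      exact_mod_cast h4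
    have h3 : (F.card : ℝ) = ((F.filter fun p => p < w).card : ℝ) +
        ((F.filter fun p => ¬ p < w).card : ℝ) := by
      exact_mod_cast (Finset.card_filter_add_card_filter_not (s := F) (fun p => p < w)).symm
    obtain ⟨s, hs⟩ : ∃ s : ℝ, s = (x : ℝ) ^ ((1 : ℝ) / 5) := ⟨_, rfl⟩
    have hs0 : 0 < s := by
      rw [hs]
      exact Real.rpow_pos_of_pos hx0 _
    have hws : (w : ℝ) ≤ s := by
      rw [hs]
      exact hwle.trans (Real.rpow_le_rpow_of_exponent_le hx1 (by norm_num))
    have hw260 : (w : ℝ) ^ 260 ≤ s := by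
      refine (pow_le_pow_left₀ (Nat.cast_nonneg _) hwle 260).trans ?_
      rw [← Real.rpow_natCast, ← Real.rpow_mul hx0.le, hs]
      exact Real.rpow_le_rpow_of_exponent_le hx1 (by norm_num)
    have hlogs : Real.log (x : ℝ) ≤ 5 * s := by
      have h4 := Real.log_le_rpow_div hx0.le (by norm_num : (0 : ℝ) < 1 / 5)
      rw [hs]
      linarith
    have hs5 : s ^ 5 = x := by
      rw [hs, ← Real.rpow_natCast, ← Real.rpow_mul hx0.le]
      norm_num
    have hsq : s ^ 2 * q ≤ x := by
      have h4 : (s ^ 2 * q) ^ 5 ≤ (x : ℝ) ^ 5 := by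
        have h5 : (q : ℝ) ^ 5 ≤ (x : ℝ) ^ 3 := by exact_mod_cast hqx
        calc (s ^ 2 * q) ^ 5 = (s ^ 5) ^ 2 * (q : ℝ) ^ 5 := by ring
          _ ≤ (x : ℝ) ^ 2 * (x : ℝ) ^ 3 := by
            rw [hs5]
            exact mul_le_mul_of_nonneg_left h5 (by positivity)
          _ = (x : ℝ) ^ 5 := by ring
      exact (pow_le_pow_iff_left₀ (by positivity) hx0.le (by norm_num)).mp h4
    -- the main term
    have h4 : ((x : ℝ) / q + 1) * ((1 / Real.log w) * (q / q.totient)) * 3 * Real.log x ≤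
        24000 * x / q.totient := by
      have h5 : (x : ℝ) / q + 1 ≤ 2 * (x / q) := by
        have h6 : 1 ≤ (x : ℝ) / q := (one_le_div hq0).mpr hqxR
        linarith
      have h7 : 1 / Real.log w * Real.log x ≤ 4000 := by
        rw [one_div, inv_mul_le_iff₀ hlwpos]
        linarith
      calc ((x : ℝ) / q + 1) * ((1 / Real.log w) * (q / q.totient)) * 3 * Real.log x
          = ((x : ℝ) / q + 1) * ((1 / Real.log w * Real.log x) * (q / q.totient) * 3) := by ring
        _ ≤ (2 * (x / q)) * (4000 * (q / q.totient) * 3) := by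
            refine mul_le_mul h5 ?_ (by positivity) (by positivity)
            refine mul_le_mul_of_nonneg_right ?_ (by norm_num)
            exact mul_le_mul_of_nonneg_right h7 (by positivity)
        _ = 24000 * x / q.totient := by
            field_simp
            ring
    have h8 : s ^ 2 ≤ x / q.totient := by
      rw [le_div_iff₀ hφ]
      exact (mul_le_mul_of_nonneg_left hφq (by positivity)).trans hsq
    have h9 : 0 ≤ (x : ℝ) / q.totient := by positivity
    have h10 : (F.card : ℝ) * Real.log x ≤ 24010 * (x / q.totient) := by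
      rw [h3]
      have h11 : ((F.filter fun p => p < w).card : ℝ) * Real.log x ≤ 5 * s ^ 2 := by
        calc ((F.filter fun p => p < w).card : ℝ) * Real.log x ≤ s * (5 * s) :=
              mul_le_mul (h2.trans hws) hlogs hlog hs0.le
          _ = 5 * s ^ 2 := by ring
      have h12 : (w : ℝ) ^ 260 * Real.log x ≤ 5 * s ^ 2 := by
        calc (w : ℝ) ^ 260 * Real.log x ≤ s * (5 * s) := mul_le_mul hw260 hlogs hlog hs0.le
          _ = 5 * s ^ 2 := by ring
      have h13 := mul_le_mul_of_nonneg_right h1 hlog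
      rw [add_mul] at h13
      have h14 : 24000 * (x : ℝ) / q.totient = 24000 * (x / q.totient) := by ring
      rw [h14] at h4
      rw [add_mul]
      linarith
    calc Th x q ≤ 24010 * (x / q.totient) := hcard.trans h10
      _ ≤ (24010 + X₀ ^ 2) * (x / q.totient) := by
          refine mul_le_mul_of_nonneg_right ?_ h9
          have := sq_nonneg X₀
          linarith
      _ = (24010 + X₀ ^ 2) * x / q.totient := by ring

end Pool.Agent.EWG.H50
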