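import Pool.Agent.EWG.StmtsB

/-!
# Squad EWG, row BVF: all moduli
-/

set_option autoImplicit false

namespace Pool.Agent.EWG.H50

open Finset Pool.Agent.PrimeFourier Filter
open scoped BigOperators

/-- powers of the logarithm against a power -/
theorem bvf_ev (B κ η : ℝ) (hB : 0 < B) (hκ : 0 < κ) (hη : 0 < η) :
    ∀ᶠ y : ℝ in atTop, 12 * B * (1 + Real.log y) ^ 10 * y ^ (-κ) ≤ η := by
  have hc : 0 < η / (12 * B * 2 ^ 10) := by positivity
  have h1 := (isLittleO_log_rpow_rpow_atTop (10 : ℝ) hκ).bound hc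
  filter_upwards [h1, eventually_ge_atTop (Real.exp 1)] with y hy hy1
  have hy0 : 0 < y := (Real.exp_pos 1).trans_le hy1
  have hlog : 1 ≤ Real.log y := by
    rw [← Real.log_exp 1]
    exact Real.log_le_log (Real.exp_pos 1) hy1
  have e10 : (10 : ℝ) = ((10 : ℕ) : ℝ) := by norm_num
  rw [e10, Real.rpow_natCast, Real.norm_of_nonneg (by positivity),
    Real.norm_of_nonneg (Real.rpow_nonneg hy0.le _)] at hy
  have h2 : (1 + Real.log y) ^ 10 ≤ 2 ^ 10 * Real.log y ^ 10 := by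
    rw [← mul_pow]
    exact pow_le_pow_left₀ (by linarith) (by linarith) _
  have h3 : y ^ κ * y ^ (-κ) = 1 := by
    rw [← Real.rpow_add hy0, add_neg_cancel, Real.rpow_zero]
  have hneg : 0 < y ^ (-κ) := Real.rpow_pos_of_pos hy0 _
  calc 12 * B * (1 + Real.log y) ^ 10 * y ^ (-κ)
      ≤ 12 * B * (2 ^ 10 * (η / (12 * B * 2 ^ 10) * y ^ κ)) * y ^ (-κ) := by
        refine mul_le_mul_of_nonneg_right (mul_le_mul_of_nonneg_left ?_ (by positivity)) hneg.le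
        exact h2.trans (mul_le_mul_of_nonneg_left hy (by positivity))
    _ = η * (y ^ κ * y ^ (-κ)) := by
        field_simp
    _ = η := by rw [h3, mul_one]

/-- the floor of a number which is at least one -/
theorem bvf_floor {y : ℝ} (hy : 1 ≤ y) : 1 ≤ ⌊y⌋₊ ∧ (⌊y⌋₊ : ℝ) ≤ y ∧ y ≤ 2 * (⌊y⌋₊ : ℝ) := by
  have h1 : 1 ≤ ⌊y⌋₊ := (Nat.one_le_floor_iff y).mpr hy
  have h2 : (1 : ℝ) ≤ (⌊y⌋₊ : ℝ) := by exact_mod_cast h1
  have h3 := Nat.lt_floor_add_one y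
  exact ⟨h1, Nat.floor_le (by linarith), by linarith⟩

/-- **BVF** -/
theorem bvf (hBvd : BvdStmt) : BvfStmt := by
  intro δ ε η hδ hε hη
  obtain ⟨B, hB, hbvd⟩ := hBvd
  obtain ⟨κ, hκ0, hκδ, hκε, hκ32⟩ : ∃ κ : ℝ, 0 < κ ∧ κ ≤ δ ∧ κ ≤ ε ∧ κ ≤ 1 / 32 :=
    ⟨min δ (min ε (1 / 32)), lt_min hδ (lt_min hε (by norm_num)), min_le_left _ _,
      (min_le_right _ _).trans (min_le_left _ _), (min_le_right _ _).trans (min_le_right _ _)⟩
  filter_upwards [tendsto_natCast_atTop_atTop.eventually (bvf_ev B κ η hB hκ0 hη),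
    eventually_ge_atTop 3] with x hx hx3
  have hX3 : (3 : ℝ) ≤ (x : ℝ) := by exact_mod_cast hx3
  have hX0 : (0 : ℝ) < (x : ℝ) := by linarith
  have hX1 : (1 : ℝ) ≤ (x : ℝ) := by linarith
  have hlog0 : 0 ≤ Real.log (x : ℝ) := Real.log_nonneg hX1
  obtain ⟨hR1, hR2, hR3⟩ := bvf_floor (Real.one_le_rpow hX1 hδ.le)
  obtain ⟨hW1, hW2, hW3⟩ := bvf_floor (Real.one_le_rpow hX1 (by norm_num : (0 : ℝ) ≤ 1 / 16))
  set R₀ : ℕ := ⌊(x : ℝ) ^ δ⌋₊ with hR₀
  set W : ℕ := ⌊(x : ℝ) ^ ((1 : ℝ) / 16)⌋₊ with hW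
  have hR0pos : 0 < R₀ := hR1
  have hWx : W ≤ x := by
    have h1 : (x : ℝ) ^ ((1 : ℝ) / 16) ≤ (x : ℝ) ^ (1 : ℝ) :=
      Real.rpow_le_rpow_of_exponent_le hX1 (by norm_num)
    rw [Real.rpow_one] at h1
    exact_mod_cast hW2.trans h1
  set L : Finset ℕ := (Finset.Icc 1 x).filter
    (fun l : ℕ => l.Prime ∧ (x : ℝ) ^ δ < (l : ℝ) ∧ (l : ℝ) ≤ (x : ℝ) ^ (1 / 2 - ε)) with hL
  have hLm : ∀ l ∈ L, l ≤ x ∧ l.Prime ∧ R₀ < l ∧ (l : ℝ) ≤ (x : ℝ) ^ (1 / 2 - ε) := by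
    intro l hl
    obtain ⟨h1, h2, h3, h4⟩ := Finset.mem_filter.mp hl
    refine ⟨(Finset.mem_Icc.mp h1).2, h2, ?_, h4⟩
    exact_mod_cast hR2.trans_lt h3
  set φ : ℕ → ℕ := fun l => Nat.log 2 ((l - 1) / R₀) with hφ
  have hφL : ∀ l ∈ L, φ l ∈ Finset.range (Nat.log 2 x + 1) := by
    intro l hl
    obtain ⟨h1, h2, h3, h4⟩ := hLm l hl
    rw [Finset.mem_range, Nat.lt_succ_iff]
    exact Nat.log_mono_right ((Nat.div_le_self _ _).trans (by omega))
  set Z : ℝ := (x : ℝ) * (x : ℝ) ^ (-κ) with hZ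
  have hXk : 0 < (x : ℝ) ^ (-κ) := Real.rpow_pos_of_pos hX0 _
  have hZ0 : 0 < Z := mul_pos hX0 hXk
  have hZ' : Z = (x : ℝ) ^ (1 - κ) := by
    rw [hZ, sub_eq_add_neg, Real.rpow_add hX0, Real.rpow_one]
  have hZ'' : Z = (x : ℝ) / (x : ℝ) ^ κ := by
    rw [hZ, Real.rpow_neg hX0.le, div_eq_mul_inv]
  have hXkpos : 0 < (x : ℝ) ^ κ := Real.rpow_pos_of_pos hX0 _
  -- one block
  have hblock : ∀ i ∈ Finset.range (Nat.log 2 x + 1),
      ∑ l ∈ L.filter (fun l => φ l = i),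
        Real.log (l : ℝ) * |∑ n ∈ Ioc 0 x, ArithmeticFunction.vonMangoldt n * D l n| ≤
      Real.log x * (B * (1 + Real.log x) ^ 8 * (6 * Z)) := by
    intro i _
    rcases (L.filter (fun l => φ l = i)).eq_empty_or_nonempty with he | ⟨l₀, hl₀⟩
    · rw [he, Finset.sum_empty]
      positivity
    have hmem : ∀ l ∈ L.filter (fun l => φ l = i), l.Prime ∧ 2 ^ i * R₀ < l ∧
        l ≤ 2 * (2 ^ i * R₀) := by
      intro l hl
      obtain ⟨hl1, hl2⟩ := Finset.mem_filter.mp hl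
      obtain ⟨h1, h2, h3, h4⟩ := hLm l hl1
      have h5 : 1 ≤ (l - 1) / R₀ := (Nat.le_div_iff_mul_le hR0pos).mpr (by omega)
      have h6 : 2 ^ i ≤ (l - 1) / R₀ := by
        rw [← hl2]
        exact Nat.pow_log_le_self 2 (by omega)
      have h7 : (l - 1) / R₀ < 2 ^ (i + 1) := by
        rw [← hl2]
        exact Nat.lt_pow_succ_log_self (by norm_num) _
      rw [Nat.le_div_iff_mul_le hR0pos] at h6
      rw [Nat.div_lt_iff_lt_mul hR0pos, pow_succ] at h7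
      refine ⟨h2, by omega, ?_⟩
      have h8 : 2 ^ i * 2 * R₀ = 2 * (2 ^ i * R₀) := by ring
      omega
    obtain ⟨hp₀, hl₀1, hl₀2⟩ := hmem l₀ hl₀
    obtain ⟨h01, h02, h03, h04⟩ := hLm l₀ (Finset.mem_filter.mp hl₀).1
    have hRi : (1 : ℕ) ≤ 2 ^ i := Nat.one_le_two_pow
    have hRR : R₀ ≤ 2 ^ i * R₀ := Nat.le_mul_of_pos_left _ (by positivity)
    set R : ℕ := 2 ^ i * R₀ with hR
    have hRpos : 0 < R := lt_of_lt_of_le hR0pos hRR
    have hRX : (R : ℝ) ≤ (x : ℝ) ^ (1 / 2 - ε) :=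
      (by exact_mod_cast hl₀1.le : (R : ℝ) ≤ (l₀ : ℝ)).trans h04
    have hmain := hbvd R W x (L.filter (fun l => φ l = i)) hRpos (by omega) hW1 hWx hmem
    have hRposR : (0 : ℝ) < (R : ℝ) := by exact_mod_cast hRpos
    have hWposR : (0 : ℝ) < (W : ℝ) := by exact_mod_cast hW1
    have ha : (x : ℝ) / R ≤ 2 * Z := by
      have h1 : (x : ℝ) ^ κ ≤ (x : ℝ) ^ δ := Real.rpow_le_rpow_of_exponent_le hX1 hκδ
      have h2 : (R₀ : ℝ) ≤ (R : ℝ) := by exact_mod_cast hRR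
      rw [hZ'', div_le_iff₀ hRposR]
      have h3 : 2 * ((x : ℝ) / (x : ℝ) ^ κ) * R = (x : ℝ) * ((2 * R) / (x : ℝ) ^ κ) := by ring
      rw [h3]
      refine le_mul_of_one_le_right hX0.le ?_
      rw [one_le_div hXkpos]
      linarith
    have hb : (x : ℝ) / √W ≤ 2 * Z := by
      have h1 : (x : ℝ) ^ κ ≤ (x : ℝ) ^ ((1 : ℝ) / 32) :=
        Real.rpow_le_rpow_of_exponent_le hX1 hκ32
      have h0 : 0 ≤ (x : ℝ) ^ ((1 : ℝ) / 32) := Real.rpow_nonneg hX0.le _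
      have h2 : (x : ℝ) ^ ((1 : ℝ) / 32) / 2 ≤ √W := by
        apply Real.le_sqrt_of_sq_le
        have h4 : ((x : ℝ) ^ ((1 : ℝ) / 32)) ^ 2 = (x : ℝ) ^ ((1 : ℝ) / 16) := by
          rw [← Real.rpow_natCast, ← Real.rpow_mul hX0.le]
          norm_num
        rw [div_pow, h4]
        have h5 : 0 ≤ (x : ℝ) ^ ((1 : ℝ) / 16) := Real.rpow_nonneg hX0.le _
        linarith
      have hs : 0 < √(W : ℝ) := Real.sqrt_pos.mpr hWposR
      rw [hZ'', div_le_iff₀ hs]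
      have h3 : 2 * ((x : ℝ) / (x : ℝ) ^ κ) * √W = (x : ℝ) * ((2 * √W) / (x : ℝ) ^ κ) := by
        ring
      rw [h3]
      refine le_mul_of_one_le_right hX0.le ?_
      rw [one_le_div hXkpos]
      linarith
    have hc : √(x : ℝ) * R ≤ Z := by
      have h1 : √(x : ℝ) * R ≤ (x : ℝ) ^ ((1 : ℝ) / 2) * (x : ℝ) ^ (1 / 2 - ε) := by
        rw [Real.sqrt_eq_rpow]
        exact mul_le_mul_of_nonneg_left hRX (Real.rpow_nonneg hX0.le _)
      refine h1.trans ?_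
      rw [← Real.rpow_add hX0, hZ']
      exact Real.rpow_le_rpow_of_exponent_le hX1 (by linarith)
    have hd : (R : ℝ) * (W : ℝ) ^ 2 ≤ Z := by
      have h1 : (R : ℝ) * (W : ℝ) ^ 2 ≤
          (x : ℝ) ^ (1 / 2 - ε) * ((x : ℝ) ^ ((1 : ℝ) / 16)) ^ 2 :=
        mul_le_mul hRX (pow_le_pow_left₀ hWposR.le hW2 2) (by positivity)
          (Real.rpow_nonneg hX0.le _)
      refine h1.trans ?_
      rw [← Real.rpow_natCast ((x : ℝ) ^ ((1 : ℝ) / 16)), ← Real.rpow_mul hX0.le,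
        ← Real.rpow_add hX0, hZ']
      refine Real.rpow_le_rpow_of_exponent_le hX1 ?_
      push_cast
      linarith
    have hlogl : ∀ l ∈ L.filter (fun l => φ l = i), Real.log (l : ℝ) ≤ Real.log x := by
      intro l hl
      obtain ⟨h1, h2, h3, h4⟩ := hLm l (Finset.mem_filter.mp hl).1
      exact Real.log_le_log (by exact_mod_cast h2.pos) (by exact_mod_cast h1)
    calc ∑ l ∈ L.filter (fun l => φ l = i),
        Real.log (l : ℝ) * |∑ n ∈ Ioc 0 x, ArithmeticFunction.vonMangoldt n * D l n|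
        ≤ ∑ l ∈ L.filter (fun l => φ l = i),
          Real.log x * |∑ n ∈ Ioc 0 x, ArithmeticFunction.vonMangoldt n * D l n| :=
          Finset.sum_le_sum fun l hl =>
            mul_le_mul_of_nonneg_right (hlogl l hl) (abs_nonneg _)
      _ = Real.log x * ∑ l ∈ L.filter (fun l => φ l = i),
          |∑ n ∈ Ioc 0 x, ArithmeticFunction.vonMangoldt n * D l n| := by
          rw [Finset.mul_sum]
      _ ≤ Real.log x * (B * (1 + Real.log x) ^ 8 * (6 * Z)) := by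
          refine mul_le_mul_of_nonneg_left (hmain.trans ?_) hlog0
          refine mul_le_mul_of_nonneg_left ?_ (by positivity)
          linarith
  -- all blocks
  rw [← Finset.sum_fiberwise_of_maps_to hφL]
  refine (Finset.sum_le_sum hblock).trans ?_
  rw [Finset.sum_const, Finset.card_range, nsmul_eq_mul]
  have hK : ((Nat.log 2 x + 1 : ℕ) : ℝ) ≤ 2 * (1 + Real.log x) := by
    have h1 : ((Nat.log 2 x : ℕ) : ℝ) ≤ Real.logb 2 x := by
      exact_mod_cast Real.natLog_le_logb x 2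
    have h2 : Real.logb 2 x ≤ 2 * Real.log x := by
      rw [Real.logb, div_le_iff₀ (Real.log_pos (by norm_num))]
      have h3 := Real.log_two_gt_d9
      nlinarith [hlog0]
    push_cast
    linarith
  have hl1 : Real.log x ≤ 1 + Real.log x := by linarith
  calc ((Nat.log 2 x + 1 : ℕ) : ℝ) * (Real.log x * (B * (1 + Real.log x) ^ 8 * (6 * Z)))
      ≤ (2 * (1 + Real.log x)) * ((1 + Real.log x) * (B * (1 + Real.log x) ^ 8 * (6 * Z))) := by
        refine mul_le_mul hK (mul_le_mul_of_nonneg_right hl1 (by positivity)) (by positivity)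
          (by positivity)
    _ = (12 * B * (1 + Real.log x) ^ 10 * (x : ℝ) ^ (-κ)) * x := by
        rw [hZ]
        ring
    _ ≤ η * x := mul_le_mul_of_nonneg_right hx hX0.le

end Pool.Agent.EWG.H50
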